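import Pool.Agent.H87.EBK.Stmts4
import Pool.Agent.H89.EBK.DEG

/-!
# Board ebu, row DEGR: a second vertex with at most two neighbours
-/

set_option autoImplicit false

namespace Pool.EBK

theorem DEGR_main {V : Type} [Finite V] (G : SimpleGraph V) (h : V) (hG : ¬ HasK4Minor G)
    (hw : ∃ w, w ≠ h) : ∃ z : V, z ≠ h ∧ ∃ x y : V, ∀ u, G.Adj z u → u = x ∨ u = y := by
  by_cases h1 : ∃ y, G.Adj h y
  · obtain ⟨y, hy⟩ := h1
    by_cases h2 : ∃ w, w ≠ h ∧ w ≠ y
    · obtain ⟨w, hwh, hwy⟩ := h2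
      obtain ⟨z, -, hz, -, a, b, hab⟩ := DEG_key hG _ Set.univ (Nat.lt_succ_self _) h y
        (Set.mem_univ _) (Set.mem_univ _) hy ⟨w, Set.mem_univ _, hwh, hwy⟩
      exact ⟨z, hz, a, b, fun u hu => hab u (Set.mem_univ _) hu⟩
    · push Not at h2
      refine ⟨y, hy.ne.symm, h, y, fun u _ => ?_⟩
      by_cases h3 : u = h
      · exact Or.inl h3
      · exact Or.inr (h2 u h3)
  · push Not at h1
    have hno : ∀ z u, G.Adj z u → u ≠ h := by
      rintro z u hzu rfl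
      exact h1 z hzu.symm
    by_cases h2 : ∃ x y, x ≠ h ∧ y ≠ h ∧ G.Adj x y
    · obtain ⟨x, y, hx, hy, hxy⟩ := h2
      by_cases h3 : ∃ w, w ≠ h ∧ w ≠ x ∧ w ≠ y
      · obtain ⟨w, hwh, hwx, hwy⟩ := h3
        obtain ⟨z, hz, -, -, a, b, hab⟩ := DEG_key hG _ {u | u ≠ h} (Nat.lt_succ_self _) x y
          hx hy hxy ⟨w, hwh, hwx, hwy⟩
        exact ⟨z, hz, a, b, fun u hu => hab u (hno z u hu) hu⟩
      · push Not at h3
        refine ⟨x, hx, x, y, fun u hu => ?_⟩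
        by_cases h4 : u = x
        · exact Or.inl h4
        · exact Or.inr (h3 u (hno x u hu) h4)
    · push Not at h2
      obtain ⟨w, hw⟩ := hw
      exact ⟨w, hw, w, w, fun u hu => absurd hu (h2 w u hw (hno w u hu))⟩

/-- Row DEGR. -/
theorem degr (_hSUB : SUB) : DEGR := fun _ _ G h hG hw => DEGR_main G h hG hw

end Pool.EBK
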